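import Pool.Agent.Q167.WV.Upper

/-!
# MP_3fc48d_an, Q1: every `ψ_b` with `0 < b ≤ 1/6` is a frame wavelet
-/

set_option autoImplicit false

open MeasureTheory Filter Topology Set
open scoped ComplexConjugate InnerProductSpace ENNReal FourierTransform
open Pool.Agent.Helper704 Pool.Agent.Helper704.RW Pool.Agent.Q167.WV

namespace Pool.Agent.Results.MP_3fc48d_an.AllFrames

/-- `ψ` is a frame wavelet: the functions `ψ_{j,k}(x) = 2^{j/2} ψ(2^j x - k)` form a frame of `L²(ℝ)`. -/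
def FrameWavelet (ψ : Lp ℂ 2 (volume : Measure ℝ)) : Prop :=
  ∃ w : ℤ × ℤ → Lp ℂ 2 (volume : Measure ℝ),
    (∀ p : ℤ × ℤ, (w p : ℝ → ℂ) =ᵐ[volume]
      fun x => ((Real.sqrt ((2 : ℝ) ^ p.1) : ℝ) : ℂ) * ψ ((2 : ℝ) ^ p.1 * x - p.2)) ∧
    ∃ A B : ℝ, 0 < A ∧ 0 < B ∧ ∀ f : Lp ℂ 2 (volume : Measure ℝ),
      Summable (fun p : ℤ × ℤ => ‖⟪w p, f⟫_ℂ‖ ^ 2) ∧
      A * ‖f‖ ^ 2 ≤ ∑' p : ℤ × ℤ, ‖⟪w p, f⟫_ℂ‖ ^ 2 ∧
      ∑' p : ℤ × ℤ, ‖⟪w p, f⟫_ℂ‖ ^ 2 ≤ B * ‖f‖ ^ 2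

theorem result (b : ℝ) (hb : 0 < b) (hb' : b ≤ 1 / 6) :
    (∃ ψ : Lp ℂ 2 (volume : Measure ℝ),
      ((𝓕 ψ : Lp ℂ 2 (volume : Measure ℝ)) : ℝ → ℂ) =ᵐ[volume] (Ioo (-1) (-b) ∪ Ioo b 1).indicator 1) ∧
    ∀ ψ : Lp ℂ 2 (volume : Measure ℝ),
      ((𝓕 ψ : Lp ℂ 2 (volume : Measure ℝ)) : ℝ → ℂ) =ᵐ[volume] (Ioo (-1) (-b) ∪ Ioo b 1).indicator 1 →
      FrameWavelet ψ := by
  refine ⟨⟨𝓕⁻ ((memLp_Om hb).toLp _), ?_⟩, fun ψ hψ => ?_⟩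
  · rw [FourierTransform.fourier_fourierInv_eq]
    exact (memLp_Om hb).coeFn_toLp
  refine ⟨fun p => Ds p ψ, fun p => ?_, ?_⟩
  · filter_upwards [coeFn_wco (dy p.1) (p.2 : ℝ) (wT (dy p.1)) (wt_wT _) ψ] with x hx
    change (wco (dy p.1) (p.2 : ℝ) (wT (dy p.1)) (wt_wT _) ψ : ℝ → ℂ) x = _
    rw [hx, wT, adet_dy, dy_apply]
  · obtain ⟨n, hn⟩ := pow_unbounded_of_one_lt b⁻¹ (one_lt_two : (1 : ℝ) < 2)
    refine ⟨1 / 48, 4 * n + 1, by norm_num, by positivity, fun f => ?_⟩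
    have hgm : Measurable ((𝓕 f : HH) : ℝ → ℂ) := (Lp.stronglyMeasurable _).measurable
    have hX : ∫⁻ x, ‖(𝓕 f : HH) x‖ₑ ^ 2 = ENNReal.ofReal (‖f‖ ^ 2) := by
      rw [← enorm_sq, ← ofReal_norm, Lp.norm_fourier_eq, ENNReal.ofReal_pow (norm_nonneg _)]
    have hsum := frame_sum hb ψ hψ f
    have hup := upper hb hn.le hgm
    have hlo := lower hb hb' hgm (Lp.memLp (𝓕 f : HH))
    rw [← hsum, hX] at hup hlo
    have hterm : ∀ p : ℤ × ℤ, ‖⟪Ds p ψ, f⟫_ℂ‖ₑ ^ 2 = ENNReal.ofReal (‖⟪Ds p ψ, f⟫_ℂ‖ ^ 2) := fun p => ofReal_sq_norm _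
    have hfin : ∑' p : ℤ × ℤ, ENNReal.ofReal (‖⟪Ds p ψ, f⟫_ℂ‖ ^ 2) ≠ ⊤ := by
      simp_rw [← hterm]
      refine (hup.trans_lt (ENNReal.mul_lt_top ?_ ENNReal.ofReal_lt_top)).ne
      exact ENNReal.mul_lt_top (by norm_num) (ENNReal.natCast_lt_top n)
    have hs : Summable (fun p : ℤ × ℤ => ‖⟪Ds p ψ, f⟫_ℂ‖ ^ 2) := by
      have := ENNReal.summable_toReal hfin
      refine this.congr fun p => ?_
      rw [ENNReal.toReal_ofReal (by positivity)]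
    simp_rw [hterm] at hup hlo
    rw [← ENNReal.ofReal_tsum_of_nonneg (fun p => by positivity) hs] at hup hlo
    refine ⟨hs, ?_, ?_⟩
    · have e48 : (48 : ℝ≥0∞) = ENNReal.ofReal 48 := by norm_num
      rw [e48, ← ENNReal.ofReal_mul (by norm_num)] at hlo
      have := (ENNReal.ofReal_le_ofReal_iff (mul_nonneg (by norm_num) (tsum_nonneg fun p => by positivity))).1 hlo
      linarith
    · have e4 : (4 * n : ℝ≥0∞) = ENNReal.ofReal (4 * n) := by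
        rw [ENNReal.ofReal_mul (by norm_num), ENNReal.ofReal_natCast]; norm_num
      rw [e4, ← ENNReal.ofReal_mul (by positivity)] at hup
      have := (ENNReal.ofReal_le_ofReal_iff (by positivity)).1 hup
      nlinarith [sq_nonneg ‖f‖]

end Pool.Agent.Results.MP_3fc48d_an.AllFrames
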